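import Pool.Agent.BEP.Stmts

set_option autoImplicit false

/-! # Row SHP of squad BEP: shells -/

namespace Pool.Agent.BEP.H46

open Set Filter Topology MeasureTheory
open scoped InnerProductSpace ENNReal
open Pool.Agent Pool.Agent.BE01 Pool.Agent.BEG Pool.Agent.BEH
open Pool.Agent.BEO (BB)
open Pool.Agent.BER (Sh GO Zas Bes cd)

theorem li_univ (d : ℕ) : li (univ : Set (En d ≃ₗᵢ[ℝ] En d)) = GO d := by
  ext g
  simp [li, GO]

/-- asymptotics of the difference of two zeros -/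
theorem shp_zas (c a b : ℝ) (ha : 0 < a) (hab : a < b) (yas : Pool.Agent.BER.YasStmt) :
    Zas (-(c * (b - a) ^ 2 / (a * b))) 0 {x | 0 < x ∧ ∃ y y' : ℝ → ℝ, Bes c y y' ∧
      y (x / (b - a) * a) = 0 ∧ y (x / (b - a) * b) = 0} := by
  obtain ⟨C, X0, hC, hX0, hY⟩ := yas c
  have hL : 0 < b - a := by linarith
  have hb : 0 < b := by linarith
  refine ⟨2 * C * (b - a) ^ 2 / a ^ 2, max 1 (X0 * (b - a) / a), by positivity,
    le_max_left _ _, ?_⟩
  rintro x ⟨hx, y, y', hB, hya, hyb⟩ hxX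
  obtain ⟨β, hβ⟩ := hY y y' hB
  have hx1 : X0 * (b - a) / a ≤ x := (le_max_right _ _).trans hxX
  have hsa : X0 ≤ x / (b - a) * a := by
    rw [div_le_iff₀ ha] at hx1
    rw [div_mul_eq_mul_div, le_div_iff₀ hL]
    exact hx1
  have hs : 0 < x / (b - a) := div_pos hx hL
  have hsb : X0 ≤ x / (b - a) * b := hsa.trans (mul_le_mul_of_nonneg_left hab.le hs.le)
  obtain ⟨k1, h1⟩ := hβ _ hsa hya
  obtain ⟨k2, h2⟩ := hβ _ hsb hyb
  refine ⟨k2 - k1, ?_⟩
  have h3 : C / (x / (b - a) * b) ^ 2 ≤ C / (x / (b - a) * a) ^ 2 := by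
    apply div_le_div_of_nonneg_left hC.le (by positivity)
    apply pow_le_pow_left₀ (by positivity)
    exact mul_le_mul_of_nonneg_left hab.le hs.le
  have e1 : x - 0 - ((k2 - k1 : ℤ) : ℝ) * Real.pi + -(c * (b - a) ^ 2 / (a * b)) / (2 * x) =
      (x / (b - a) * b - β - k2 * Real.pi + c / (2 * (x / (b - a) * b))) -
      (x / (b - a) * a - β - k1 * Real.pi + c / (2 * (x / (b - a) * a))) := by
    have h4 : b - a ≠ 0 := hL.ne'
    have h5 : x / (b - a) * b - x / (b - a) * a = x := by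
      field_simp
    have h6 : c / (2 * (x / (b - a) * b)) - c / (2 * (x / (b - a) * a)) =
        -(c * (b - a) ^ 2 / (a * b)) / (2 * x) := by
      field_simp
      ring
    push_cast
    linear_combination -h5 - h6
  have e2 : 2 * C * (b - a) ^ 2 / a ^ 2 / x ^ 2 = 2 * (C / (x / (b - a) * a) ^ 2) := by
    field_simp
  rw [e1, e2]
  have h7 := abs_sub (x / (b - a) * b - β - k2 * Real.pi + c / (2 * (x / (b - a) * b)))
    (x / (b - a) * a - β - k1 * Real.pi + c / (2 * (x / (b - a) * a)))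
  linarith

theorem shp (ksy : Pool.Agent.BEG.KsyStmt) (yas : Pool.Agent.BER.YasStmt)
    (nra : Pool.Agent.BER.NraStmt) (gpa : Pool.Agent.BER.GpaStmt) (syb : Pool.Agent.BER.SybStmt)
    (ine : Pool.Agent.BER.IneStmt) (sph : Pool.Agent.BER.SphStmt) : ShpStmt := by
  classical
  intro d p a b hd hd3 hp ha hab
  have hL : 0 < b - a := by linarith
  have hb : 0 < b := by linarith
  obtain ⟨hDom, hSym⟩ := syb.2.1 d a b (by omega) ha hab
  obtain ⟨K, hK, hKi⟩ := ksy d (Sh d a b) (GO d) (by omega) hDom hSym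
  have hpow : ∀ (m : ℕ) (f : Lp ℝ 2 (mu (Sh d a b))),
      (f =ᵐ[mu (Sh d a b)] fun x => (‖x‖ ^ 2) ^ m) → f ∈ K := by
    intro m f hf
    exact (hKi f).2 (syb.2.2 d (Sh d a b) (fun r => (r ^ 2) ^ m) f hDom hSym hf)
  have hc0 : cd d ≠ 0 := by
    unfold cd
    have h1 : (d : ℝ) - 1 ≠ 0 := by
      have : (2 : ℝ) ≤ d := by exact_mod_cast hd
      linarith
    have h2 : (d : ℝ) - 3 ≠ 0 := by
      intro h
      apply hd3
      have h3 : (d : ℝ) = 3 := by linarith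
      exact_mod_cast h3
    exact div_ne_zero (mul_ne_zero h1 h2) (by norm_num)
  set c : ℝ := -(cd d * (b - a) ^ 2 / (a * b)) with hcdef
  have hc : c ≠ 0 := by
    rw [hcdef]
    exact neg_ne_zero.2 (div_ne_zero (mul_ne_zero hc0 (pow_ne_zero _ hL.ne'))
      (mul_ne_zero ha.ne' hb.ne'))
  -- the zeros
  let Z : Set ℝ := {x | 0 < x ∧ ∃ y y' : ℝ → ℝ, Bes (cd d) y y' ∧
      y (x / (b - a) * a) = 0 ∧ y (x / (b - a) * b) = 0}
  have hZ : Zas c 0 Z := shp_zas (cd d) a b ha hab yas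
  have hn1 : ∀ n : ℕ, ∃ X1 : ℝ, 2 ≤ n → ∀ x : ℝ, X1 ≤ x → ¬ (x ∈ Z ∧ (n : ℝ) * x ∈ Z) := by
    intro n
    by_cases hn : 2 ≤ n
    · obtain ⟨X1, h⟩ := nra c 0 Z hc hZ n hn
      exact ⟨X1, fun _ => h⟩
    · exact ⟨0, fun h => absurd h hn⟩
  choose X1 hX1 using hn1
  set X : ℝ := ∑ n ∈ Finset.range (2 * p + 2), |X1 n| with hX
  have hXn : 0 ≤ X := Finset.sum_nonneg fun _ _ => abs_nonneg _
  have hXle : ∀ n : ℕ, n ≤ 2 * p + 1 → X1 n ≤ X := by
    intro n hn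
    refine (le_abs_self _).trans ?_
    exact Finset.single_le_sum (f := fun n => |X1 n|) (fun _ _ => abs_nonneg _)
      (Finset.mem_range.2 (by omega))
  obtain ⟨l, hl, u, huK, hu0, hue⟩ := ine d (Sh d a b) K hd hDom hK hpow ((X / (b - a)) ^ 2)
  have hl0 : 0 < l := lt_of_le_of_lt (sq_nonneg _) hl
  have hsl : 0 < Real.sqrt l := Real.sqrt_pos.2 hl0
  set x : ℝ := (b - a) * Real.sqrt l with hx
  have hx0 : 0 < x := mul_pos hL hsl
  have hxs : x / (b - a) = Real.sqrt l := by rw [hx, mul_div_cancel_left₀ _ hL.ne']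
  have hxX : X ≤ x := by
    have h1 : X / (b - a) < Real.sqrt l := (Real.lt_sqrt (div_nonneg hXn hL.le)).2 hl
    rw [div_lt_iff₀ hL] at h1
    rw [hx, mul_comm]
    exact h1.le
  have hxZ : x ∈ Z := by
    refine ⟨hx0, ?_⟩
    obtain ⟨y, y', h1, h2, h3⟩ := sph d a b (Real.sqrt l) u hd ha hab hsl ((hKi u).1 huK)
      (by rw [Real.sq_sqrt hl0.le]; exact hue) hu0
    exact ⟨y, y', h1, by rw [hxs]; exact h2, by rw [hxs]; exact h3⟩
  have hnZ : ∀ n : ℕ, 1 ≤ n → ¬ ((n : ℝ) * x ∈ Z) →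
      (n : ℝ) ^ 2 * l ∉ Sp (Sh d a b) (univ : Set (En d ≃ₗᵢ[ℝ] En d)) := by
    rintro n hn hnx ⟨u', hi, h0, he⟩
    rw [li_univ] at hi
    have hn0 : (0 : ℝ) < n := by exact_mod_cast hn
    have hnx0 : 0 < (n : ℝ) * x := mul_pos hn0 hx0
    apply hnx
    refine ⟨hnx0, ?_⟩
    have h4 : ((n : ℝ) * Real.sqrt l) ^ 2 = (n : ℝ) ^ 2 * l := by
      rw [mul_pow, Real.sq_sqrt hl0.le]
    obtain ⟨y, y', h1, h2, h3⟩ := sph d a b ((n : ℝ) * Real.sqrt l) u' hd ha hab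
      (mul_pos hn0 hsl) hi (by rw [h4]; exact he) h0
    have h5 : (n : ℝ) * x / (b - a) = (n : ℝ) * Real.sqrt l := by rw [mul_div_assoc, hxs]
    exact ⟨y, y', h1, by rw [h5]; exact h2, by rw [h5]; exact h3⟩
  refine ⟨l, ⟨u, ?_, hu0, hue⟩, ?_, ?_⟩
  · rw [li_univ]
    exact (hKi u).1 huK
  · intro n _ h3 hn
    refine hnZ n (by omega) fun h => ?_
    exact hX1 n (by omega) x ((hXle n hn).trans hxX) ⟨hxZ, h⟩
  · intro J
    obtain ⟨N, hN⟩ := gpa c 0 Z hc hZ x p hx0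
    by_cases h : ∃ n1 : ℕ, Odd n1 ∧ max J N < n1 ∧ n1 ≤ max J N + 2 * p ∧ (n1 : ℝ) * x ∈ Z
    · obtain ⟨n1, ho, h1, h2, h3⟩ := h
      have hJ : J ≤ max J N := le_max_left _ _
      have hN' : N ≤ max J N := le_max_right _ _
      refine ⟨n1, by omega, ?_⟩
      intro n hn h4 h5
      refine hnZ n (by omega) fun h6 => ?_
      obtain ⟨r, hr⟩ := ho
      obtain ⟨t, ht⟩ := hn
      have h7 : n = n1 + 2 * (t - r) := by omega
      refine hN n1 (by omega) (t - r) (by omega) (by omega) ⟨h3, ?_⟩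
      have h8 : (n : ℝ) = (n1 : ℝ) + 2 * ((t - r : ℕ) : ℝ) := by
        rw [h7]
        push_cast
        ring
      rw [← h8]
      exact h6
    · refine ⟨max J N, le_max_left _ _, ?_⟩
      intro n hn h4 h5
      exact hnZ n (by omega) fun h6 => h ⟨n, hn, h4, h5, h6⟩

end Pool.Agent.BEP.H46
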